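import Mathlib

/-! The Weierstrass zeta function and the quasi-periods of a lattice. -/

namespace GPC96

/-- The Weierstrass zeta function `ζ(z) = 1/z + ∑_{l ≠ 0} (1/(z-l) + 1/l + z/l²)`
(the term `l = 0` of the sum below is `1/z`). -/
noncomputable def zeta (L : PeriodPair) (z : ℂ) : ℂ :=
  ∑' l : L.lattice, (1 / (z - l) + 1 / (l : ℂ) + z / (l : ℂ) ^ 2)

/-- The quasi-period `η(ω) = 2 ζ(ω/2)` attached to a basis vector `ω` of the lattice. -/
noncomputable def eta (L : PeriodPair) (w : ℂ) : ℂ := 2 * zeta L (w / 2)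

/-- The four periods `ω₁, ω₂, η(ω₁), η(ω₂)` of `dx/y` and `-x dx/y` on `y² = 4x³ - g₂x - g₃`. -/
def periods (L : PeriodPair) : Set ℂ := {L.ω₁, L.ω₂, eta L L.ω₁, eta L L.ω₂}

end GPC96
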